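import Pool.Agent.P8H9.TQ.Stm

/-!
# Project TQ, part FIN (helper44): the loss at the multiples of a point, at a finite place
-/

set_option autoImplicit false

namespace Pool.Agent.P8H44.TQ

open WeierstrassCurve NumberField IsDedekindDomain Pool.Agent.H901R3.MS Pool.Agent.Y673.Loc
open Pool.Agent.Y673.Loc.ZV Pool.Agent.W275.FM Pool.Agent.W275.FMK Pool.Agent.Y673.FM
open Pool.Agent.H691R3 Pool.Agent.W223.AK Pool.Agent.Y733.LS Pool.Agent.TH942
open Pool.Agent.Q19.SU Pool.Agent.P8H9.TQ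

theorem dn_small {u : ℝ} (h0 : 0 ≤ u) (h1 : u ≤ 1 / 2) : dn u = u := by
  unfold dn
  rw [abs_sub_round_eq_min, Int.fract_eq_self.2 ⟨h0, by linarith⟩, min_eq_left (by linarith)]

theorem dn_neg_small {u : ℝ} (h0 : 0 ≤ u) (h1 : u ≤ 1 / 2) : dn (-u) = u := by
  rcases eq_or_lt_of_le h0 with h | h
  · rw [← h, neg_zero, dn_small le_rfl (by norm_num)]
  · unfold dn
    have e : Int.fract u = u := Int.fract_eq_self.2 ⟨h0, by linarith⟩
    rw [abs_sub_round_eq_min, Int.fract_neg (by rw [e]; exact h.ne'), e,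
      min_eq_right (by linarith)]
    ring

theorem dn_add_int (u : ℝ) (k : ℤ) : dn (u + k) = dn u := by
  unfold dn
  rw [round_add_intCast]
  push_cast
  congr 1
  ring

theorem dn_rr {H t s : ℤ} (hH : 1 ≤ H) (h : RR H t s) : dn ((t : ℝ) / (2 * H)) = s / (2 * H) := by
  obtain ⟨h0, h1, h2⟩ := h
  have hHr : (0 : ℝ) < H := by exact_mod_cast (by omega : 0 < H)
  have hs0 : (0 : ℝ) ≤ s := by exact_mod_cast h0
  have hs1 : (s : ℝ) ≤ H := by exact_mod_cast h1
  have hu0 : 0 ≤ (s : ℝ) / (2 * H) := by positivity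
  have hu1 : (s : ℝ) / (2 * H) ≤ 1 / 2 := by
    rw [div_le_iff₀ (by positivity)]
    linarith
  rcases h2 with ⟨k, hk⟩ | ⟨k, hk⟩
  · have e : (t : ℝ) = s + 2 * H * k := by
      have : t = s + 2 * H * k := by linarith
      exact_mod_cast this
    have e2 : (t : ℝ) / (2 * H) = s / (2 * H) + k := by
      rw [e]
      field_simp
    rw [e2, dn_add_int, dn_small hu0 hu1]
  · have e : (t : ℝ) = -s + 2 * H * k := by
      have : t = -s + 2 * H * k := by linarith
      exact_mod_cast this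
    have e2 : (t : ℝ) / (2 * H) = -(s / (2 * H)) + k := by
      rw [e]
      field_simp
    rw [e2, dn_add_int, dn_neg_small hu0 hu1]

theorem fin : S_FIN := by
  rintro ⟨κ, hκ⟩
  refine ⟨κ, ?_⟩
  intro L _ _ _ v a b e₁ e₂ e₃ hsum ha hb ha0 hb0 hD hj P
  have hN := Nv_one_lt v
  have hj0 : jj a b ≠ 0 := by
    rw [jj_eq]
    exact div_ne_zero (mul_ne_zero (by norm_num) (pow_ne_zero 3 ha0)) hD
  have h3 : e₃ = -e₁ - e₂ := by linear_combination hsum
  have hD' : dl a b = -((e₁ - e₂) * (e₂ - e₃) * (e₃ - e₁)) ^ 2 := by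
    unfold dl
    rw [ha, hb, h3]
    ring
  have hd : (e₁ - e₂) * (e₂ - e₃) * (e₃ - e₁) ≠ 0 := by
    intro h
    apply hD
    rw [hD', h]
    ring
  have l12 : e₁ ≠ e₂ := fun h => hd (by rw [h]; ring)
  have l23 : e₂ ≠ e₃ := fun h => hd (by rw [h]; ring)
  have l13 : e₁ ≠ e₃ := fun h => hd (by rw [h]; ring)
  have hjr : jr e₁ e₂ e₃ = jj a b := by
    rw [jj_eq, hD']
    unfold jr
    rw [div_eq_div_iff (pow_ne_zero 2 hd) (neg_ne_zero.2 (pow_ne_zero 2 hd)), ha, h3]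
    ring
  obtain ⟨k, hk⟩ : ∃ k, k = (adv L v).v (jj a b) := ⟨_, rfl⟩
  have hjv : fv v (jj a b) = Nv v ^ (-k) := by
    rw [Pool.Agent.Y673.Cnt.fv_adv v hj0, hk]
  have hk0 : k < 0 := by
    by_contra hcon
    rw [hjv] at hj
    have := zpow_le_one_of_nonpos₀ hN.le (show -k ≤ 0 by omega)
    linarith
  obtain ⟨c, hc⟩ : ∃ c, c = (adv L v).v (2 : L) := ⟨_, rfl⟩
  have h2E : (adv L v).E c (2 : L) := ⟨two_ne_zero, hc.symm⟩
  have hc0 : 0 ≤ c := by
    by_contra hcon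
    have h1 := (fv_Na v).ofNat 2
    have h2 : fv v (2 : L) = Nv v ^ (-c) := by
      rw [Pool.Agent.Y673.Cnt.fv_adv v two_ne_zero, hc]
    have h3 : 1 < Nv v ^ (-c) := one_lt_zpow₀ hN (by omega)
    rw [← h2] at h3
    exact absurd h3 (not_lt.2 h1)
  obtain ⟨e, η, H, D, hH, hcA, hcB⟩ := root_data hc0 h2E (by norm_num) hsum l12 l23 l13 hk0
    (by rw [hjr]; exact ⟨hj0, hk.symm⟩)
  have hA : a = cA e η := ha.trans hcA
  have hB : b = cB e η := hb.trans hcB
  clear ha hb hcA hcB hD' hjr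
  subst hA hB
  have hH1 := D.dat.hH
  have hHr : (0 : ℝ) < H := by exact_mod_cast (by omega : 0 < H)
  have hlog : Real.log (max (fv v (jj (cA e η) (cB e η))) 1) = 2 * H * Real.log (Nv v) := by
    rw [max_eq_left hj.le, hjv, Real.log_zpow, ← hH]
    push_cast
    ring
  obtain ⟨α, hα⟩ := LV.total D P
  have hα0 := hα.nonneg D
  rcases eq_or_lt_of_le hα0 with h | h
  · rw [← h] at hα
    refine ⟨0, ?_⟩
    intro n x y hn hnP
    have h1 : n • P ∈ T0 D := (T0 D).nsmul_mem hα n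
    rw [hnP] at h1
    have h2 := hκ L v c H e η D x 0 h1
    rw [mul_zero, dn_small le_rfl (by norm_num), mul_zero]
    push_cast at h2
    linarith
  · refine ⟨α / (2 * H), ?_⟩
    intro n x y hn hnP
    obtain ⟨⟨s, h1, h2⟩, -⟩ := LV.mult D hα h n
    rw [hnP] at h1
    have h3 := hκ L v c H e η D x s h1
    have h4 := dn_rr hH1 h2
    have e1 : ((n * α : ℤ) : ℝ) / (2 * H) = n * (α / (2 * H)) := by
      push_cast
      ring
    rw [e1] at h4
    rw [hlog, h4]
    have e2 : 2 * (2 * (H : ℝ) * Real.log (Nv v)) * (s / (2 * H)) = 2 * s * Real.log (Nv v) := by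
      field_simp
    rw [e2]
    exact h3

end Pool.Agent.P8H44.TQ
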