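import Pool.Agent.P8H9.TQ.Stm

/-!
# Project TQ, part KFN (helper44): the loss at a pole of the invariant
-/

set_option autoImplicit false

namespace Pool.Agent.P8H44.TQ

open WeierstrassCurve NumberField IsDedekindDomain Pool.Agent.H901R3.MS Pool.Agent.Y673.Loc
open Pool.Agent.Y673.Loc.ZV Pool.Agent.W275.FM Pool.Agent.W275.FMK Pool.Agent.Y673.FM
open Pool.Agent.H691R3 Pool.Agent.W223.AK Pool.Agent.Y733.LS Pool.Agent.TH942
open Pool.Agent.Q19.SU Pool.Agent.P8H9.TQ

section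
variable {L : Type} [Field L] {w : ZV L} {c H a : ℤ} {δ z : L}

theorem nn_cases (D : Dat w c H δ) (h : NN w c H z a) :
    (a = 0 ∧ ∃ n : ℤ, n ≤ 0 ∧ w.E n z ∧ w.E (4 * n) ((z ^ 2 - δ) ^ 2 + 4 * δ * (z + 1) ^ 2)) ∨
    (w.G 0 z ∧ ∃ m : ℤ, m ≤ 2 * a + 4 * c ∧ w.E m ((1 + z) * (z ^ 2 - δ))) ∨
    (w.G 0 z ∧ w.E (2 * a + 8 * c) ((z ^ 2 - δ) ^ 2 + 4 * δ * (z + 1) ^ 2)) := by
  obtain ⟨hc, hH, h2, hd⟩ := D
  have h4 := Dat.four ⟨hc, hH, h2, hd⟩
  rcases h with ⟨ha, hG⟩ | ⟨h1, h3, hE⟩ | ⟨ha, hN⟩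
  · right; right
    refine ⟨hG.mono (by omega), ?_⟩
    have e1 : w.G (2 * H + 4 * c) (z ^ 2 - δ) := (hG.sq.mono (by omega)).sub (hd.mono (by omega))
    have e2 : w.E 0 (z + 1) := (hG.mono (m := 1) (by omega)).addE E_one (by omega)
    have e3 : w.E (2 * H + 8 * c) (4 * δ * (z + 1) ^ 2) := ((h4.mul hd).mul e2.sq).cast (by ring)
    exact (e1.sq.addE e3 (by omega)).cast (by rw [ha])
  · right; left
    refine ⟨hE.mono (by omega), ?_⟩
    have e1 : w.E (2 * (a + 2 * c)) (z ^ 2 - δ) := hE.sq.subG hd.G (by omega)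
    have e2 : w.E 0 (1 + z) := E_one.addG hE.G (by omega)
    exact ⟨_, by omega, e2.mul e1⟩
  · rw [not_G_iff] at hN
    obtain ⟨m, hm, hE⟩ := hN
    have e1 : w.E (2 * m) (z ^ 2 - δ) := hE.sq.subG hd.G (by omega)
    by_cases hm0 : m ≤ 0
    · left
      refine ⟨ha, m, hm0, hE, ?_⟩
      have e2 : w.G m (z + 1) := hE.G.add ((E_one (w := w)).mono hm0)
      have e3 : w.G (2 * c + (2 * H + 6 * c) + 2 * m) (4 * δ * (z + 1) ^ 2) :=
        (h4.mul hd).G.mul e2.sq
      exact (e1.sq.addG e3 (by omega)).cast (by ring)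
    · right; left
      refine ⟨hE.mono (by omega), ?_⟩
      have e2 : w.E 0 (1 + z) := E_one.addG hE.G (by omega)
      exact ⟨_, by omega, e2.mul e1⟩

end

theorem kfn : S_KFN := by
  classical
  refine ⟨20, ?_⟩
  intro L _ _ v c H e η D x a hNN
  have hn := fv_Na v
  have hN := Nv_one_lt v
  have hq : 0 < Real.log (Nv v) := Real.log_pos hN
  obtain ⟨z, hz⟩ : ∃ z, z = (x - e) / (3 * e) := ⟨_, rfl⟩
  obtain ⟨δ, hδ⟩ : ∃ δ, δ = (η / (3 * e)) ^ 2 := ⟨_, rfl⟩
  have he := D.he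
  have h3e := D.h3e
  have h3L := D.three
  have h2L := D.two
  have hdat := D.dat
  rw [← hδ] at hdat
  rw [← hz] at hNN
  have hxz : x = e * (1 + 3 * z) := by
    rw [hz]
    field_simp
    ring
  have hηδ : η ^ 2 = 9 * e ^ 2 * δ := by
    rw [hδ]
    field_simp
    ring
  have hA : cA e η = -3 * e ^ 2 - 9 * e ^ 2 * δ := by
    unfold cA
    linear_combination -hηδ
  have hB : cB e η = 2 * e ^ 3 - 18 * e ^ 3 * δ := by
    unfold cB
    linear_combination (-2 * e) * hηδ
  obtain ⟨A, hA'⟩ : ∃ A, A = cA e η := ⟨_, rfl⟩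
  obtain ⟨B, hB'⟩ : ∃ B, B = cB e η := ⟨_, rfl⟩
  rw [← hA'] at hA ⊢
  rw [← hB'] at hB ⊢
  have eF : pF A B x - e * pG A B x = 81 * e ^ 4 * ((z ^ 2 - δ) ^ 2 + 4 * δ * (z + 1) ^ 2) := by
    rw [hA, hB, hxz]
    unfold pF pG
    ring
  have eG : pG A B x = 108 * e ^ 3 * ((1 + z) * (z ^ 2 - δ)) := by
    rw [hA, hB, hxz]
    unfold pG
    ring
  -- absolute values
  have logE : ∀ (n : ℤ) (y : L), (adv L v).E n y →
      Real.log (fv v y) = -(n : ℝ) * Real.log (Nv v) := by
    intro n y h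
    rw [Pool.Agent.Y673.Cnt.fv_adv v h.1, h.2, Real.log_zpow]
    push_cast
    ring
  have w2 : fv v (2 : L) ≤ 1 := hn.ofNat 2
  have w3 : fv v (3 : L) ≤ 1 := hn.ofNat 3
  have w9 : fv v (9 : L) ≤ 1 := hn.ofNat 9
  have w18 : fv v (18 : L) ≤ 1 := hn.ofNat 18
  have p2 : 0 < fv v (2 : L) := (fv v).pos h2L
  have p3 : 0 < fv v (3 : L) := (fv v).pos h3L
  have pe : 0 < fv v e := (fv v).pos he
  have l2 : Real.log (fv v (2 : L)) = -(c : ℝ) * Real.log (Nv v) := logE c 2 hdat.two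
  have l2' : Real.log (fv v (2 : L)) ≤ 0 := Real.log_nonpos p2.le w2
  have l3' : Real.log (fv v (3 : L)) ≤ 0 := Real.log_nonpos p3.le w3
  have w6 : Real.log (fv v (6 : L)) = Real.log (fv v (2 : L)) + Real.log (fv v (3 : L)) := by
    have : (6 : L) = 2 * 3 := by norm_num
    rw [this, map_mul, Real.log_mul p2.ne' p3.ne']
  have w81 : fv v (81 : L) = fv v (3 : L) ^ 4 := by
    have : (81 : L) = 3 ^ 4 := by norm_num
    rw [this, map_pow]
  have w108 : fv v (108 : L) = fv v (2 : L) ^ 2 * fv v (3 : L) ^ 3 := by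
    have : (108 : L) = 2 ^ 2 * 3 ^ 3 := by norm_num
    rw [this, map_mul, map_pow, map_pow]
  have dE := hdat.del
  have hH1 := hdat.hH
  have hc0 := hdat.hc
  have wδ : fv v δ < 1 := by
    rw [Pool.Agent.Y673.Cnt.fv_adv v dE.1, dE.2]
    exact zpow_lt_one_of_neg₀ hN (by omega)
  have wδ0 : 0 ≤ fv v δ := apply_nonneg _ _
  -- the size
  have wB : fv v B = fv v 2 * fv v e ^ 3 := by
    have e1 : B = 2 * e ^ 3 * (1 + -(9 * δ)) := by rw [hB]; ring
    have e2 : fv v (1 + -(9 * δ)) = 1 := by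
      have h1 : fv v (-(9 * δ)) < fv v (1 : L) := by
        rw [map_neg_eq_map, map_mul, map_one]
        nlinarith
      rw [hn.eq h1, map_one]
    rw [e1, map_mul, map_mul, map_pow, e2, mul_one]
  have wA : fv v A ≤ fv v e ^ 2 := by
    have e1 : A = e ^ 2 * (-3 - 9 * δ) := by rw [hA]; ring
    have e2 : fv v (-3 - 9 * δ) ≤ 1 := by
      refine hn.le_sub ?_ ?_
      · rw [map_neg_eq_map]; exact w3
      · rw [map_mul]; nlinarith
    rw [e1, map_mul, map_pow]
    nlinarith [pow_pos pe 2]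
  have hS0 := sz_nonneg (fv v) A B
  have hS1 : fv v 2 * fv v e ≤ sz (fv v) A B := by
    have h1 := le_sz_cube (fv v) A B
    rw [wB] at h1
    have h2 : (fv v 2 * fv v e) ^ 3 ≤ sz (fv v) A B ^ 3 := by
      refine le_trans ?_ h1
      rw [mul_pow]
      have h3 : fv v (2 : L) ^ 3 ≤ fv v (2 : L) := by
        calc fv v (2 : L) ^ 3 ≤ fv v (2 : L) ^ 1 := pow_le_pow_of_le_one p2.le w2 (by norm_num)
          _ = _ := pow_one _
      exact mul_le_mul_of_nonneg_right h3 (by positivity)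
    exact le_of_pow_le_pow_left₀ (by norm_num) hS0 h2
  have hS2 : sz (fv v) A B ≤ fv v e := by
    have h1 := sz_six (fv v) A B
    have h2 : sz (fv v) A B ^ 6 ≤ fv v e ^ 6 := by
      rw [h1]
      apply max_le
      · calc fv v A ^ 3 ≤ (fv v e ^ 2) ^ 3 := pow_le_pow_left₀ (apply_nonneg _ _) wA 3
          _ = fv v e ^ 6 := by ring
      · rw [wB]
        calc (fv v 2 * fv v e ^ 3) ^ 2 ≤ (1 * fv v e ^ 3) ^ 2 := by
              apply pow_le_pow_left₀ (by positivity)
              exact mul_le_mul_of_nonneg_right w2 (by positivity)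
          _ = fv v e ^ 6 := by ring
    exact le_of_pow_le_pow_left₀ (by norm_num) pe.le h2
  have hSpos : 0 < sz (fv v) A B := lt_of_lt_of_le (mul_pos p2 pe) hS1
  obtain ⟨S, hS⟩ : ∃ S, S = sz (fv v) A B := ⟨_, rfl⟩
  unfold kap
  rw [← hS] at hS0 hS1 hS2 hSpos ⊢
  obtain ⟨M, hM⟩ : ∃ M, M = max (fv v (pF A B x)) (S * fv v (pG A B x)) := ⟨_, rfl⟩
  rw [← hM]
  have hM2 : fv v 2 * fv v e * fv v (pG A B x) ≤ M := by
    rw [hM]
    exact (mul_le_mul_of_nonneg_right hS1 (apply_nonneg _ _)).trans (le_max_right _ _)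
  have hM1 : fv v 2 * fv v (pF A B x - e * pG A B x) ≤ M := by
    have h1 := hn.sub (pF A B x) (e * pG A B x)
    rw [map_mul] at h1
    rcases le_max_iff.1 h1 with h2 | h2
    · calc fv v 2 * fv v (pF A B x - e * pG A B x) ≤ 1 * fv v (pF A B x) :=
          mul_le_mul w2 h2 (apply_nonneg _ _) zero_le_one
        _ = fv v (pF A B x) := one_mul _
        _ ≤ M := by rw [hM]; exact le_max_left _ _
    · calc fv v 2 * fv v (pF A B x - e * pG A B x) ≤ fv v 2 * (fv v e * fv v (pG A B x)) :=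
          mul_le_mul_of_nonneg_left h2 p2.le
        _ = fv v 2 * fv v e * fv v (pG A B x) := by ring
        _ ≤ M := hM2
  have hX : max (fv v x) S ≤ fv v e * max 1 (fv v z) := by
    have h1 : 1 ≤ max 1 (fv v z) := le_max_left _ _
    have h2 : fv v z ≤ max 1 (fv v z) := le_max_right _ _
    apply max_le
    · rw [hxz, map_mul]
      apply mul_le_mul_of_nonneg_left _ pe.le
      refine hn.le_add ?_ ?_
      · rw [map_one]; exact h1
      · rw [map_mul]
        have : 0 ≤ fv v z := apply_nonneg _ _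
        nlinarith
    · nlinarith
  have hX0 : 0 < max (fv v x) S := lt_of_lt_of_le hSpos (le_max_right _ _)
  have hmz : 0 < max 1 (fv v z) := lt_of_lt_of_le one_pos (le_max_left _ _)
  have hX' : Real.log (max (fv v x) S) ≤ Real.log (fv v e) + Real.log (max 1 (fv v z)) := by
    rw [← Real.log_mul pe.ne' hmz.ne']
    exact Real.log_le_log hX0 hX
  rw [w6]
  rcases nn_cases hdat hNN with ⟨ha, n, hn0, hEz, hEN⟩ | ⟨hGz, m, hm, hER⟩ | ⟨hGz, hEN⟩
  · have hz1 : 1 ≤ fv v z := by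
      rw [Pool.Agent.Y673.Cnt.fv_adv v hEz.1, hEz.2]
      exact one_le_zpow₀ hN.le (by omega)
    rw [max_eq_right hz1, logE n z hEz] at hX'
    have h1 : 0 < fv v ((z ^ 2 - δ) ^ 2 + 4 * δ * (z + 1) ^ 2) := (fv v).pos hEN.1
    rw [eF, map_mul, map_mul, map_pow, w81] at hM1
    have h2 := Real.log_le_log (by positivity) hM1
    rw [Real.log_mul p2.ne' (by positivity), Real.log_mul (by positivity) h1.ne',
      Real.log_mul (by positivity) (by positivity), Real.log_pow, Real.log_pow,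
      logE _ _ hEN] at h2
    push_cast at h2
    rw [ha]
    push_cast
    nlinarith
  · have hz1 : fv v z ≤ 1 := by
      rcases hGz with h | h
      · rw [h, map_zero]; exact zero_le_one
      · by_cases hz0 : z = 0
        · rw [hz0, map_zero]; exact zero_le_one
        · rw [Pool.Agent.Y673.Cnt.fv_adv v hz0]
          exact zpow_le_one_of_nonpos₀ hN.le (by omega)
    rw [max_eq_left hz1, Real.log_one, add_zero] at hX'
    have h1 : 0 < fv v ((1 + z) * (z ^ 2 - δ)) := (fv v).pos hER.1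
    rw [eG, map_mul, map_mul, map_pow, w108] at hM2
    have h2 := Real.log_le_log (by positivity) hM2
    rw [Real.log_mul (by positivity) (by positivity), Real.log_mul p2.ne' pe.ne',
      Real.log_mul (by positivity) h1.ne', Real.log_mul (by positivity) (by positivity),
      Real.log_mul (by positivity) (by positivity), Real.log_pow, Real.log_pow, Real.log_pow,
      logE _ _ hER] at h2
    push_cast at h2
    have h3 : (m : ℝ) ≤ 2 * a + 4 * c := by exact_mod_cast hm
    have h4 : (m : ℝ) * Real.log (Nv v) ≤ (2 * a + 4 * c) * Real.log (Nv v) :=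
      mul_le_mul_of_nonneg_right h3 hq.le
    push_cast
    nlinarith
  · have hz1 : fv v z ≤ 1 := by
      rcases hGz with h | h
      · rw [h, map_zero]; exact zero_le_one
      · by_cases hz0 : z = 0
        · rw [hz0, map_zero]; exact zero_le_one
        · rw [Pool.Agent.Y673.Cnt.fv_adv v hz0]
          exact zpow_le_one_of_nonpos₀ hN.le (by omega)
    rw [max_eq_left hz1, Real.log_one, add_zero] at hX'
    have h1 : 0 < fv v ((z ^ 2 - δ) ^ 2 + 4 * δ * (z + 1) ^ 2) := (fv v).pos hEN.1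
    rw [eF, map_mul, map_mul, map_pow, w81] at hM1
    have h2 := Real.log_le_log (by positivity) hM1
    rw [Real.log_mul p2.ne' (by positivity), Real.log_mul (by positivity) h1.ne',
      Real.log_mul (by positivity) (by positivity), Real.log_pow, Real.log_pow,
      logE _ _ hEN] at h2
    push_cast at h2
    push_cast
    nlinarith

end Pool.Agent.P8H44.TQ
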